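import Pool.Agent.Q81.TF.Stm

open Set MeasureTheory Filter Topology

namespace Pool.Agent.Q81.TF

/-- the arithmetic of the exponents -/
theorem neck_arith {t ρ κ0 k1 A A5 S L l κ C1 : ℝ} (ht : 0 ≤ t) (ht6 : t ≤ 6)
    (hρ : ρ = 441 / 1000 + 441 / 2000 * t) (hκ0 : 0 ≤ κ0) (hk1 : 0 ≤ k1) (hA : 0 ≤ A)
    (hA5 : 0 ≤ A5) (hS : 0 ≤ S) (hL : 0 ≤ L) (hl : 0 ≤ l)
    (hκ : 5 * ρ * κ = 5 * ρ * κ0 + 5 * k1 + 10 * l + A + S + t * L)
    (hC1 : C1 = 5 * ρ * κ0 + 5 * k1 + A + 2 * A5)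
    (h : (2 + 4 * t) * (L - κ) ≤ A5 + S) :
    2205 / 1000 * L ≤ C1 + 10 * l + 21025 / 10000 * S ∧
      t * L ≤ 6 * C1 + 5 * (t * l) + 3 * S := by
  have hρ0 : 0 < ρ := by rw [hρ]; positivity
  have hD : 0 < 2 + 4 * t := by linarith
  obtain ⟨C0, hC0⟩ : ∃ C0, C0 = 5 * ρ * κ0 + 5 * k1 + A := ⟨_, rfl⟩
  have hC00 : 0 ≤ C0 := by rw [hC0]; positivity
  have hC1' : C1 = C0 + 2 * A5 := by rw [hC1, hC0]
  have h1 : 5 * ρ * ((2 + 4 * t) * (L - κ)) ≤ 5 * ρ * (A5 + S) :=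
    mul_le_mul_of_nonneg_left h (by positivity)
  have h2 : (2 + 4 * t) * ((5 * ρ - t) * L) ≤ (2 + 4 * t) * (C0 + 10 * l + S) +
      5 * ρ * (A5 + S) := by
    have e : (2 + 4 * t) * ((5 * ρ - t) * L) = 5 * ρ * ((2 + 4 * t) * (L - κ)) +
        (2 + 4 * t) * (5 * ρ * κ - t * L) := by ring
    rw [e, hκ]
    have e2 : 5 * ρ * κ0 + 5 * k1 + 10 * l + A + S + t * L - t * L = C0 + 10 * l + S := by
      rw [hC0]; ring
    rw [e2]
    linarith
  have h5ρ : 5 * ρ = 2205 / 1000 + 11025 / 10000 * t := by rw [hρ]; ring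
  have h3 : 5 * ρ ≤ 11025 / 10000 * (2 + 4 * t) := by rw [h5ρ]; linarith
  have hAS : 0 ≤ A5 + S := by linarith
  have hg : 2205 / 1000 ≤ 5 * ρ - t := by rw [h5ρ]; linarith
  constructor
  · have h4 : (2 + 4 * t) * ((5 * ρ - t) * L) ≤
        (2 + 4 * t) * (C0 + 10 * l + S + 11025 / 10000 * (A5 + S)) := by
      have := mul_le_mul_of_nonneg_right h3 hAS
      linarith
    have h5 := le_of_mul_le_mul_left h4 hD
    have h6 : 2205 / 1000 * L ≤ (5 * ρ - t) * L := mul_le_mul_of_nonneg_right hg hL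
    rw [hC1']
    linarith
  · have hDg : 0 < (2 + 4 * t) * (5 * ρ - t) := mul_pos hD (by linarith)
    apply le_of_mul_le_mul_left _ hDg
    have h4 := mul_le_mul_of_nonneg_left h2 ht
    have e : (2 + 4 * t) * (5 * ρ - t) * (t * L) = t * ((2 + 4 * t) * ((5 * ρ - t) * L)) := by ring
    rw [e]
    refine h4.trans ?_
    rw [hC1']
    have k1 : t * ((2 + 4 * t) * C0) ≤ (2 + 4 * t) * (5 * ρ - t) * (6 * C0) := by
      have : t * C0 ≤ (5 * ρ - t) * (6 * C0) := by nlinarith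
      nlinarith
    have k2 : t * ((2 + 4 * t) * (10 * l)) ≤ (2 + 4 * t) * (5 * ρ - t) * (5 * (t * l)) := by
      have h7 : 0 ≤ t * l := mul_nonneg ht hl
      have : t * (10 * l) ≤ (5 * ρ - t) * (5 * (t * l)) := by nlinarith
      nlinarith
    have k3 : t * (5 * ρ * A5) ≤ (2 + 4 * t) * (5 * ρ - t) * (12 * A5) := by
      have h8 : t * (5 * ρ) ≤ (2 + 4 * t) * (5 * ρ - t) * 12 := by
        rw [h5ρ]
        nlinarith
      have := mul_le_mul_of_nonneg_right h8 hA5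
      linarith
    have k4 : t * ((2 + 4 * t) * S + 5 * ρ * S) ≤ (2 + 4 * t) * (5 * ρ - t) * (3 * S) := by
      have h8 : t * ((2 + 4 * t) + 5 * ρ) ≤ (2 + 4 * t) * (5 * ρ - t) * 3 := by
        rw [h5ρ]
        nlinarith
      have := mul_le_mul_of_nonneg_right h8 hS
      linarith
    linarith

/-- the main estimate at a deep neck -/
theorem neck_core {n M Pm κ0 m0 c0 : ℝ} (hn : 3 ≤ n) (hn9 : n ≤ 9) (hM1 : 1 ≤ M) (hκ0 : 0 ≤ κ0)
    (hm0 : 0 < m0) {a0 a E : ℝ} {f f1 f2 f3 m : ℝ → ℝ} (P : Prof n a0 a E f f1 f2 f3)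
    (hM : ∀ x ∈ Ioc a0 a, f x ≤ M) (hPm : |f1 a| ≤ Pm)
    (dm : ∀ x ∈ Ioc a0 a, HasDerivAt m (f x) x) (mpos : ∀ x ∈ Ioc a0 a, 0 < m x)
    (hma : m0 ≤ m a) (hc0 : ∀ x ∈ Ioc a0 a, m0 / 2 ≤ m x → c0 ≤ f x)
    (hNE : NE n a0 a 0 (m a) κ0 f m) {x y0 z v : ℝ} (hx : a0 < x) (hxy : x ≤ y0) (hyz : y0 ≤ z)
    (hz : z ≤ a) (hmin : ∀ u ∈ Icc x z, f y0 ≤ f u) (hv : 0 < v) (hv1 : v ≤ 1) (hvx : v ≤ f x)
    (hvz : v ≤ f z) (hd1 : f y0 < v / 2) (hdc : f y0 < c0) {κ : ℝ}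
    (hκ : κ = κ0 + (|Real.log (4 / m0)| + Real.log 17 + Real.log 4 + 2 * Real.log v⁻¹ +
      (cA n M Pm + Real.log (1 + E) + (n - 3) * Real.log (f y0)⁻¹ +
        Real.log (1 + Real.log (f y0)⁻¹)) / 5) / rhoP n) :
    (4 * n - 10) * (Real.log (f y0)⁻¹ - κ) ≤ (cA n M Pm + 5 * n) + Real.log (1 + E) +
      Real.log (1 + Real.log (f y0)⁻¹) := by
  have hE := P.E_nonneg
  have hxa : x ∈ Ioc a0 a := ⟨hx, (hxy.trans hyz).trans hz⟩
  have hya : y0 ∈ Ioc a0 a := ⟨hx.trans_le hxy, hyz.trans hz⟩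
  have hd : 0 < f y0 := P.pos y0 hya
  have hdle : f y0 ≤ 1 := by linarith
  have hxy' : x < y0 := by
    rcases eq_or_lt_of_le hxy with h | h
    · exfalso
      rw [h] at hvx
      linarith
    · exact h
  have hyz' : y0 < z := by
    rcases eq_or_lt_of_le hyz with h | h
    · exfalso
      rw [← h] at hvz
      linarith
    · exact h
  -- the critical point
  have hf1 : f1 y0 = 0 := by
    have hloc : IsLocalMin f y0 := by
      filter_upwards [Icc_mem_nhds hxy' hyz'] with u hu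
      exact hmin u hu
    exact hloc.hasDerivAt_eq_zero (P.d0 y0 hya)
  have hmy : m y0 < m0 / 2 := by
    by_contra hcon
    push Not at hcon
    have := hc0 y0 hya hcon
    linarith
  -- a point close to `a0`
  obtain ⟨r, hr, hr'⟩ := P.lim (f y0) hd
  obtain ⟨p, hp1, hp2⟩ : ∃ p, a0 < p ∧ p < min r x := exists_between (lt_min hr hx)
  have hpx : p < x := hp2.trans_le (min_le_right _ _)
  have hfp : f p < f y0 := hr' p ⟨hp1, hp2.trans_le (min_le_left _ _)⟩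
  have S := P.seg hp1 (hpx.le.trans hxa.2) le_rfl
  have hsub : Icc p a ⊆ Ioc a0 a := fun u hu => ⟨hp1.trans_le hu.1, hu.2⟩
  have dm' : ∀ u ∈ Icc p a, HasDerivAt m (f u) u := fun u hu => dm u (hsub hu)
  have hmm := S.mono_m dm'
  have T := S.refl
  have hneg : ∀ u ∈ Icc (-a) (-p), -u ∈ Icc p a := fun u hu =>
    ⟨by linarith [hu.2], by linarith [hu.1]⟩
  have dmT : ∀ u ∈ Icc (-a) (-p), HasDerivAt (fun u => -m (-u)) (f (-u)) u := by
    intro u hu
    have h := ((dm' (-u) (hneg u hu)).comp u (hasDerivAt_neg u)).neg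
    refine HasDerivAt.congr_deriv h ?_
    ring
  obtain ⟨L, hL⟩ : ∃ L, L = Real.log (f y0)⁻¹ := ⟨_, rfl⟩
  obtain ⟨l, hl⟩ : ∃ l, l = Real.log v⁻¹ := ⟨_, rfl⟩
  have hL0 : 0 ≤ L := by rw [hL]; exact Real.log_nonneg (by rw [one_le_inv₀ hd]; exact hdle)
  have hl0 : 0 ≤ l := by rw [hl]; exact Real.log_nonneg (by rw [one_le_inv₀ hv]; exact hv1)
  have hcA : 0 ≤ cA n M Pm := by
    unfold cA
    apply Real.log_nonneg
    have : 0 ≤ |Pm| ^ 5 := by positivity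
    linarith
  have hX : 0 ≤ Real.log (1 + E) := Real.log_nonneg (by linarith)
  have hY : 0 ≤ Real.log (1 + L) := Real.log_nonneg (by linarith)
  have hlog17 : 0 ≤ Real.log 17 := Real.log_nonneg (by norm_num)
  have hlog4 : 0 ≤ Real.log 4 := Real.log_nonneg (by norm_num)
  have hρ : 0 < rhoP n := by unfold rhoP; linarith
  have hnL : 0 ≤ (n - 3) * L := mul_nonneg (by linarith) hL0
  -- the mass to the left
  obtain ⟨τ, hτ0, hτ1, hτ2⟩ := T.neck_mass hn (M := M) (Pm := Pm) (v := v)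
    (fun u hu => hM _ (hsub (hneg u hu))) hM1 dmT (y := -y0) (x := -x)
    (by linarith [hya.2]) (by linarith) (by linarith)
    (by
      intro u hu
      show f (- -y0) ≤ f (-u)
      rw [neg_neg]
      exact hmin (-u) ⟨by linarith [hu.2], by linarith [hu.1]⟩)
    (by
      show -f1 (- -y0) = 0
      rw [neg_neg, hf1, neg_zero])
    (by
      show f (- -y0) ≤ 1
      rw [neg_neg]
      exact hdle) hv
    (by
      show 2 * f (- -y0) ≤ v
      rw [neg_neg]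
      linarith)
    (by
      show v ≤ f (- -x)
      rw [neg_neg]
      exact hvx)
    (Or.inr (by
      show f (- -p) < f (- -y0)
      rw [neg_neg, neg_neg]
      exact hfp))
  simp only [neg_neg] at hτ1 hτ2
  have hmx := mpos x hxa
  have hmy0 := mpos y0 hya
  have hτm : v ^ 2 ≤ 4 * τ * m y0 := by
    refine hτ1.trans ?_
    apply mul_le_mul_of_nonneg_left _ (by positivity)
    linarith
  have hlam := lam_le Pm hn hM1 hE hd hdle
  rw [← hL] at hlam
  rw [← hL, ← hl] at hκ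
  rw [← hL]
  obtain ⟨Λ, hΛ⟩ : ∃ Λ, Λ = cA n M Pm + Real.log (1 + E) + (n - 3) * L + Real.log (1 + L) :=
    ⟨_, rfl⟩
  rw [← hΛ] at hlam hκ
  have hΛ0 : 0 ≤ Λ := by rw [hΛ]; linarith
  have hτΛ : 5 * Real.log τ ≤ Λ := by
    have h1 : τ ^ 5 ≤ Real.exp Λ := hτ2.trans hlam
    have h2 := Real.log_le_log (by positivity) h1
    rw [Real.log_pow, Real.log_exp] at h2
    push_cast at h2
    exact h2
  have hlogm : -Real.log (m y0) ≤ 2 * l + Real.log 4 + Λ / 5 := by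
    have h1 := Real.log_le_log (by positivity) hτm
    rw [Real.log_mul (by positivity) hmy0.ne', Real.log_mul (by norm_num) hτ0.ne',
      Real.log_pow] at h1
    have h2 : Real.log v = -l := by rw [hl, Real.log_inv, neg_neg]
    rw [h2] at h1
    push_cast at h1
    linarith
  -- the scale
  have hρκ : rhoP n * κ = rhoP n * κ0 + (|Real.log (4 / m0)| + Real.log 17 + Real.log 4 + 2 * l +
      Λ / 5) := by
    rw [hκ]
    field_simp
  have habs := abs_nonneg (Real.log (4 / m0))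
  have hκκ0 : κ0 ≤ κ := by
    rw [hκ]
    have : 0 ≤ (|Real.log (4 / m0)| + Real.log 17 + Real.log 4 + 2 * l + Λ / 5) / rhoP n := by
      positivity
    linarith
  have hρκ0 : 0 ≤ rhoP n * κ0 := mul_nonneg hρ.le hκ0
  have hν1 : 16 * nuK n κ ≤ m y0 := by
    have h1 : nuK n κ ≤ m y0 / 17 := by
      unfold nuK
      rw [← Real.le_log_iff_exp_le (by positivity), Real.log_div hmy0.ne' (by norm_num), hρκ]
      linarith
    linarith
  have hν2 : nuK n κ ≤ m0 / 4 := by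
    unfold nuK
    rw [← Real.le_log_iff_exp_le (by positivity), hρκ]
    have h1 : Real.log (4 / m0) ≤ |Real.log (4 / m0)| := le_abs_self _
    have h2 : Real.log (m0 / 4) = -Real.log (4 / m0) := by
      rw [← Real.log_inv, inv_div]
    rw [h2]
    linarith
  have hκ0' : 0 ≤ κ := hκ0.trans hκκ0
  -- the bottom of the neck
  have hPm' : f1 a ≤ Pm := (le_abs_self _).trans hPm
  obtain ⟨z2, hz2, hz2a, hz2b⟩ := S.neck_right hn (M := M) (Pm := Pm)
    (fun u hu => hM _ (hsub hu)) hM1 (y := y0) (x := z) (hpx.le.trans hxy) hyz hz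
    (fun u hu => hmin u ⟨hxy.trans hu.1, hu.2⟩) hf1 hdle (by linarith) (Or.inl hPm')
  have hz2z : z2 ≤ a := hz2.2.trans hz
  have hy0m : y0 ∈ Icc p a := ⟨hpx.le.trans hxy, hya.2⟩
  have hcv := conv1 (d := z2 - y0) Pm hn hn9 hM1 hE hd hdle hκ0' (by linarith [hz2.1]) hz2b (by
    intro w hw1 hw2 hw3
    have h3 := hNE κ hκκ0 (m y0) (by linarith) (by linarith) y0 (y0 + w) (2 * f y0) hya.1
      (by linarith) (by linarith) (by linarith) (fun u hu => by
        have hu1 : f u ≤ 2 * f y0 := hz2a u ⟨hu.1, by linarith [hu.2]⟩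
        refine ⟨hu1, ?_⟩
        have h4 := S.label_lip dm' (u := y0) (v := u) (V := 2 * f y0) hy0m.1 hu.1
          (by linarith [hu.2]) (fun r hr => hz2a r ⟨hr.1, by linarith [hu.2, hr.2]⟩)
        have h5 := hmm hy0m ⟨hy0m.1.trans hu.1, by linarith [hu.2]⟩ hu.1
        rw [abs_of_nonneg (by linarith)]
        have h6 : 2 * f y0 * (u - y0) ≤ 2 * f y0 * w := by
          apply mul_le_mul_of_nonneg_left _ (by linarith)
          linarith [hu.2]
        linarith)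
    have e : y0 + w - y0 = w := by ring
    rw [e] at h3
    exact h3)
  rw [← hL] at hcv
  exact hcv

/-- the final estimate of the depth at one neck -/
theorem neck_final {n M Pm κ0 m0 E v d C1 : ℝ} (hn : 3 ≤ n) (hn9 : n ≤ 9) (hM1 : 1 ≤ M)
    (hκ0 : 0 ≤ κ0) (hE : 0 ≤ E) (hv : 0 < v) (hv1 : v ≤ 1) (hd : 0 < d) (hd1 : d ≤ 1)
    (hC1 : C1 = 5 * rhoP n * κ0 + 5 * (|Real.log (4 / m0)| + Real.log 17 + Real.log 4) +
      cA n M Pm + 2 * (cA n M Pm + 5 * n))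
    (h : (4 * n - 10) * (Real.log d⁻¹ - (κ0 + (|Real.log (4 / m0)| + Real.log 17 + Real.log 4 +
      2 * Real.log v⁻¹ + (cA n M Pm + Real.log (1 + E) + (n - 3) * Real.log d⁻¹ +
        Real.log (1 + Real.log d⁻¹)) / 5) / rhoP n)) ≤ (cA n M Pm + 5 * n) + Real.log (1 + E) +
      Real.log (1 + Real.log d⁻¹)) :
    1 + depth n d ≤ Real.exp (6 * C1) * ((C1 + 6) ^ 4 * 256) *
      ((1 + E) ^ 4 * ((1 + Real.log v⁻¹) ^ 4 * Real.exp (5 * (n - 3) * Real.log v⁻¹))) := by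
  obtain ⟨L, hL⟩ : ∃ L, L = Real.log d⁻¹ := ⟨_, rfl⟩
  obtain ⟨l, hl⟩ : ∃ l, l = Real.log v⁻¹ := ⟨_, rfl⟩
  have hL0 : 0 ≤ L := by rw [hL]; exact Real.log_nonneg (by rw [one_le_inv₀ hd]; exact hd1)
  have hl0 : 0 ≤ l := by rw [hl]; exact Real.log_nonneg (by rw [one_le_inv₀ hv]; exact hv1)
  have hdep := depth_le hn hd hd1
  rw [← hL] at h hdep
  rw [← hl] at h ⊢
  have hcA : 0 ≤ cA n M Pm := by
    unfold cA
    apply Real.log_nonneg
    have : 0 ≤ |Pm| ^ 5 := by positivity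
    linarith
  obtain ⟨X, hX⟩ : ∃ X, X = Real.log (1 + E) := ⟨_, rfl⟩
  obtain ⟨Y, hY⟩ : ∃ Y, Y = Real.log (1 + L) := ⟨_, rfl⟩
  have hX0 : 0 ≤ X := by rw [hX]; exact Real.log_nonneg (by linarith)
  have hY0 : 0 ≤ Y := by rw [hY]; exact Real.log_nonneg (by linarith)
  have hXe : Real.exp X = 1 + E := by rw [hX, Real.exp_log (by linarith)]
  have hYe : Real.exp Y = 1 + L := by rw [hY, Real.exp_log (by linarith)]
  rw [← hX, ← hY] at h
  have hρ : 0 < rhoP n := by unfold rhoP; linarith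
  obtain ⟨k1, hk1⟩ : ∃ k1, k1 = |Real.log (4 / m0)| + Real.log 17 + Real.log 4 := ⟨_, rfl⟩
  have hlog17 : 0 ≤ Real.log 17 := Real.log_nonneg (by norm_num)
  have hlog4 : 0 ≤ Real.log 4 := Real.log_nonneg (by norm_num)
  have hk10 : 0 ≤ k1 := by rw [hk1]; positivity
  rw [← hk1] at h hC1
  obtain ⟨κ, hκ⟩ : ∃ κ, κ = κ0 + (k1 + 2 * l + (cA n M Pm + X + (n - 3) * L + Y) / 5) / rhoP n :=
    ⟨_, rfl⟩
  rw [← hκ] at h
  have hκ' : 5 * rhoP n * κ = 5 * rhoP n * κ0 + 5 * k1 + 10 * l + cA n M Pm + (X + Y) +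
      (n - 3) * L := by
    rw [hκ]
    field_simp
    ring
  have ha := neck_arith (t := n - 3) (ρ := rhoP n) (κ0 := κ0) (k1 := k1) (A := cA n M Pm)
    (A5 := cA n M Pm + 5 * n) (S := X + Y) (L := L) (l := l) (κ := κ) (C1 := C1) (by linarith)
    (by linarith) (by unfold rhoP; ring) hκ0 hk10 hcA (by linarith) (by linarith) hL0 hl0 hκ'
    hC1 (by
      have e : 2 + 4 * (n - 3) = 4 * n - 10 := by ring
      rw [e]
      linarith)
  have hC10 : 0 ≤ C1 := by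
    rw [hC1]
    have : 0 ≤ 5 * rhoP n * κ0 := by positivity
    linarith
  -- the bound of `1 + L`
  have hYL : Y ≤ (1 + L) / 4 + 1 := by
    have h1 := Real.log_le_sub_one_of_pos (show 0 < (1 + L) / 4 by linarith)
    rw [Real.log_div (by linarith) (by norm_num), ← hY] at h1
    have h2 : Real.log 4 ≤ 2 := by
      have e : (4 : ℝ) = 2 ^ 2 := by norm_num
      rw [e, Real.log_pow]
      have := Real.log_two_lt_d9
      push_cast
      linarith
    linarith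
  have hLb : 1 + L ≤ (C1 + 6) * ((1 + l) * (1 + X)) := by
    have h1 : 1 + L ≤ C1 + 3 + 6 * l + 2 * X := by linarith [ha.1]
    have h2 : 0 ≤ l * X := mul_nonneg hl0 hX0
    nlinarith [mul_nonneg hC10 hl0, mul_nonneg hC10 hX0, mul_nonneg hC10 h2]
  have hX4 : (1 + X) ^ 4 ≤ 256 * (1 + E) := by
    have h1 : 1 + X ≤ 4 * Real.exp (X / 4) := by
      have := Real.add_one_le_exp (X / 4)
      linarith
    calc (1 + X) ^ 4 ≤ (4 * Real.exp (X / 4)) ^ 4 := pow_le_pow_left₀ (by linarith) h1 4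
      _ = 256 * Real.exp (X / 4) ^ 4 := by ring
      _ = 256 * Real.exp X := by
          rw [← Real.exp_nat_mul]
          congr 2
          push_cast
          ring
      _ = _ := by rw [hXe]
  have hL4 : (1 + L) ^ 4 ≤ (C1 + 6) ^ 4 * ((1 + l) ^ 4 * (256 * (1 + E))) := by
    calc (1 + L) ^ 4 ≤ ((C1 + 6) * ((1 + l) * (1 + X))) ^ 4 :=
          pow_le_pow_left₀ (by linarith) hLb 4
      _ = (C1 + 6) ^ 4 * ((1 + l) ^ 4 * (1 + X) ^ 4) := by ring
      _ ≤ _ := by gcongr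
  calc 1 + depth n d ≤ Real.exp ((n - 3) * L) * (1 + L) := hdep
    _ ≤ Real.exp (6 * C1 + 5 * ((n - 3) * l) + 3 * (X + Y)) * (1 + L) := by
        apply mul_le_mul_of_nonneg_right _ (by linarith)
        exact Real.exp_le_exp.2 ha.2
    _ = Real.exp (6 * C1) * Real.exp (5 * (n - 3) * l) * ((1 + E) ^ 3 * (1 + L) ^ 4) := by
        have e : Real.exp (6 * C1 + 5 * ((n - 3) * l) + 3 * (X + Y)) = Real.exp (6 * C1) *
            Real.exp (5 * (n - 3) * l) * (Real.exp X ^ 3 * Real.exp Y ^ 3) := by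
          rw [← Real.exp_nat_mul, ← Real.exp_nat_mul, ← Real.exp_add, ← Real.exp_add,
            ← Real.exp_add]
          congr 1
          push_cast
          ring
        rw [e, hXe, hYe]
        ring
    _ ≤ Real.exp (6 * C1) * Real.exp (5 * (n - 3) * l) * ((1 + E) ^ 3 *
          ((C1 + 6) ^ 4 * ((1 + l) ^ 4 * (256 * (1 + E))))) := by
        gcongr
    _ = _ := by ring

theorem neck : S_NECK := by
  intro n M Pm κ0 m0 c0 hn hn9 hM1 hκ0 hm0 hc0
  obtain ⟨C1, hC1⟩ : ∃ C1, C1 = 5 * rhoP n * κ0 + 5 * (|Real.log (4 / m0)| + Real.log 17 +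
    Real.log 4) + cA n M Pm + 2 * (cA n M Pm + 5 * n) := ⟨_, rfl⟩
  have hcA : 0 ≤ cA n M Pm := by
    unfold cA
    apply Real.log_nonneg
    have : 0 ≤ |Pm| ^ 5 := by positivity
    linarith
  have hρ : 0 < rhoP n := by unfold rhoP; linarith
  have hC10 : 0 ≤ C1 := by
    rw [hC1]
    have h1 : 0 ≤ 5 * rhoP n * κ0 := by positivity
    have hlog17 : 0 ≤ Real.log 17 := Real.log_nonneg (by norm_num)
    have hlog4 : 0 ≤ Real.log 4 := Real.log_nonneg (by norm_num)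
    have := abs_nonneg (Real.log (4 / m0))
    linarith
  obtain ⟨D1, hD1⟩ : ∃ D1, D1 = depth n (min c0 1) := ⟨_, rfl⟩
  have hcm : 0 < min c0 1 := lt_min hc0 one_pos
  have hD10 : 0 ≤ D1 := by rw [hD1]; exact depth_nonneg hcm (min_le_right _ _)
  obtain ⟨C2, hC2⟩ : ∃ C2, C2 = Real.exp (6 * C1) * ((C1 + 6) ^ 4 * 256) := ⟨_, rfl⟩
  have hC20 : 0 ≤ C2 := by rw [hC2]; positivity
  obtain ⟨C3, hC3⟩ : ∃ C3, C3 = 1 + C2 + D1 + 2 * Real.exp 6 := ⟨_, rfl⟩
  have he6 := Real.exp_pos 6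
  have hC31 : 1 ≤ C3 := by rw [hC3]; linarith
  obtain ⟨γ, hγ⟩ : ∃ γ, γ = 5 * (n - 3) := ⟨_, rfl⟩
  have hγ0 : 0 ≤ γ := by rw [hγ]; linarith
  have hMγ : 1 ≤ M ^ γ := Real.one_le_rpow hM1 hγ0
  refine ⟨M ^ γ * C3, one_le_mul_of_one_le_of_one_le hMγ hC31, ?_⟩
  intro a0 a E f f1 f2 f3 m P hM hPm dm mpos hma hcl hNE
  rw [← hγ]
  intro x y z hx hxy hyz hz
  have hE := P.E_nonneg
  obtain ⟨v0, hv0⟩ : ∃ v0, v0 = min (f x) (f z) := ⟨_, rfl⟩
  rw [← hv0]
  have hxa : x ∈ Ioc a0 a := ⟨hx, (hxy.le.trans hyz.le).trans hz⟩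
  have hya : y ∈ Ioc a0 a := ⟨hx.trans hxy, hyz.le.trans hz⟩
  have hza : z ∈ Ioc a0 a := ⟨(hx.trans hxy).trans hyz, hz⟩
  have hv0p : 0 < v0 := by rw [hv0]; exact lt_min (P.pos x hxa) (P.pos z hza)
  have hv0x : v0 ≤ f x := by rw [hv0]; exact min_le_left _ _
  have hv0z : v0 ≤ f z := by rw [hv0]; exact min_le_right _ _
  have hv0M : v0 ≤ M := hv0x.trans (hM x hxa)
  obtain ⟨v, hv⟩ : ∃ v, v = min v0 1 := ⟨_, rfl⟩
  have hvp : 0 < v := by rw [hv]; exact lt_min hv0p one_pos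
  have hv1 : v ≤ 1 := by rw [hv]; exact min_le_right _ _
  have hvv0 : v ≤ v0 := by rw [hv]; exact min_le_left _ _
  obtain ⟨l, hl⟩ : ∃ l, l = Real.log v⁻¹ := ⟨_, rfl⟩
  have hl0 : 0 ≤ l := by rw [hl]; exact Real.log_nonneg (by rw [one_le_inv₀ hvp]; exact hv1)
  have hll : l ≤ |Real.log v0| := by
    rw [hl, Real.log_inv, hv]
    rcases le_total v0 1 with h | h
    · rw [min_eq_left h]
      exact neg_le_abs _
    · rw [min_eq_right h]
      simp
  have hvγ : Real.exp (5 * (n - 3) * l) ≤ M ^ γ * v0 ^ (-γ) := by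
    have e : Real.exp (5 * (n - 3) * l) = v ^ (-γ) := by
      rw [Real.rpow_def_of_pos hvp, hl, Real.log_inv, hγ]
      congr 1
      ring
    rw [e]
    have hMv : v0 ≤ M * v := by
      rw [hv]
      rcases le_total v0 1 with h | h
      · rw [min_eq_left h]
        nlinarith
      · rw [min_eq_right h]
        linarith
    have hM0 : 0 < M := by linarith
    have h1 : (M * v) ^ (-γ) ≤ v0 ^ (-γ) :=
      Real.rpow_le_rpow_of_nonpos hv0p hMv (by linarith)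
    rw [Real.mul_rpow hM0.le hvp.le, Real.rpow_neg hM0.le] at h1
    have h2 : 0 < M ^ γ := by linarith
    calc v ^ (-γ) = M ^ γ * ((M ^ γ)⁻¹ * v ^ (-γ)) := by
          rw [← mul_assoc, mul_inv_cancel₀ h2.ne', one_mul]
      _ ≤ _ := mul_le_mul_of_nonneg_left h1 h2.le
  -- it suffices to prove a bound with `v`
  suffices hsuf : depth n (f y) ≤ C3 * ((1 + E) ^ 4 * ((1 + l) ^ 4 *
      Real.exp (5 * (n - 3) * l))) by
    refine hsuf.trans ?_
    have h1 : (1 + l) ^ 4 ≤ (1 + |Real.log v0|) ^ 5 := by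
      calc (1 + l) ^ 4 ≤ (1 + |Real.log v0|) ^ 4 := pow_le_pow_left₀ (by linarith) (by linarith) 4
        _ ≤ (1 + |Real.log v0|) ^ 5 := pow_le_pow_right₀ (by
            have := abs_nonneg (Real.log v0)
            linarith) (by norm_num)
    have h2 : 0 ≤ v0 ^ (-γ) := Real.rpow_nonneg hv0p.le _
    calc C3 * ((1 + E) ^ 4 * ((1 + l) ^ 4 * Real.exp (5 * (n - 3) * l))) ≤
        C3 * ((1 + E) ^ 4 * ((1 + |Real.log v0|) ^ 5 * (M ^ γ * v0 ^ (-γ)))) := by
          gcongr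
      _ = _ := by ring
  have hexp1 : 1 ≤ Real.exp (5 * (n - 3) * l) := Real.one_le_exp (by
    have : 0 ≤ (n - 3) * l := mul_nonneg (by linarith) hl0
    linarith)
  have hl4 : 1 ≤ (1 + l) ^ 4 := one_le_pow₀ (by linarith)
  have hE4 : 1 ≤ (1 + E) ^ 4 := one_le_pow₀ (by linarith)
  have hR1 : 1 ≤ (1 + E) ^ 4 * ((1 + l) ^ 4 * Real.exp (5 * (n - 3) * l)) :=
    one_le_mul_of_one_le_of_one_le hE4 (one_le_mul_of_one_le_of_one_le hl4 hexp1)
  obtain ⟨R, hR⟩ : ∃ R, R = (1 + E) ^ 4 * ((1 + l) ^ 4 * Real.exp (5 * (n - 3) * l)) := ⟨_, rfl⟩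
  rw [← hR] at hR1 ⊢
  -- the minimum point
  have hc : ContinuousOn f (Icc x z) := fun u hu =>
    (P.d0 u ⟨hx.trans_le hu.1, hu.2.trans hz⟩).continuousAt.continuousWithinAt
  obtain ⟨y0, hy0, hmin⟩ := isCompact_Icc.exists_isMinOn (nonempty_Icc.2 (hxy.trans hyz).le) hc
  have hy0a : y0 ∈ Ioc a0 a := ⟨hx.trans_le hy0.1, hy0.2.trans hz⟩
  have hd : 0 < f y0 := P.pos y0 hy0a
  have hdy : f y0 ≤ f y := hmin ⟨hxy.le, hyz.le⟩
  have hdep : depth n (f y) ≤ depth n (f y0) := depth_anti hd hdy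
  refine hdep.trans ?_
  rcases le_or_gt (min c0 1) (f y0) with h1 | h1
  · have h2 : depth n (f y0) ≤ D1 := by rw [hD1]; exact depth_anti hcm h1
    refine h2.trans ?_
    have h3 : D1 ≤ C3 := by rw [hC3]; linarith
    exact h3.trans (le_mul_of_one_le_right (by linarith) hR1)
  have hd1 : f y0 < 1 := h1.trans_le (min_le_right _ _)
  have hdc : f y0 < c0 := h1.trans_le (min_le_left _ _)
  rcases le_or_gt (v / 2) (f y0) with h2 | h2
  · have h3 := depth_le hn hd hd1.le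
    have h4 : Real.log (f y0)⁻¹ ≤ 1 + l := by
      have h5 : (f y0)⁻¹ ≤ 2 * v⁻¹ := by
        rw [inv_le_comm₀ hd (by positivity), mul_inv, inv_inv]
        linarith
      have h6 := Real.log_le_log (by positivity) h5
      rw [Real.log_mul (by norm_num) (by positivity), ← hl] at h6
      have := Real.log_two_lt_d9
      linarith
    have h5 : 0 ≤ Real.log (f y0)⁻¹ :=
      Real.log_nonneg (by rw [one_le_inv₀ hd]; exact hd1.le)
    have h6 : (n - 3) * Real.log (f y0)⁻¹ ≤ 6 + 5 * (n - 3) * l := by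
      have : (n - 3) * Real.log (f y0)⁻¹ ≤ (n - 3) * (1 + l) :=
        mul_le_mul_of_nonneg_left h4 (by linarith)
      have : 0 ≤ (n - 3) * l := mul_nonneg (by linarith) hl0
      nlinarith
    have h7 : 1 + Real.log (f y0)⁻¹ ≤ 2 * (1 + l) ^ 4 := by
      have : (1 + l) ^ 1 ≤ (1 + l) ^ 4 := pow_le_pow_right₀ (by linarith) (by norm_num)
      rw [pow_one] at this
      linarith
    have h8 : depth n (f y0) ≤ 2 * Real.exp 6 * ((1 + l) ^ 4 * Real.exp (5 * (n - 3) * l)) := by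
      have h9 : Real.exp ((n - 3) * Real.log (f y0)⁻¹) ≤ Real.exp 6 *
          Real.exp (5 * (n - 3) * l) := by
        rw [← Real.exp_add]
        exact Real.exp_le_exp.2 h6
      calc depth n (f y0) ≤ 1 + depth n (f y0) := by linarith
        _ ≤ Real.exp ((n - 3) * Real.log (f y0)⁻¹) * (1 + Real.log (f y0)⁻¹) := h3
        _ ≤ Real.exp 6 * Real.exp (5 * (n - 3) * l) * (2 * (1 + l) ^ 4) := by
            apply mul_le_mul h9 h7 (by linarith) (by positivity)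
        _ = _ := by ring
    refine h8.trans ?_
    rw [hR]
    have h9 : 2 * Real.exp 6 ≤ C3 := by rw [hC3]; linarith
    have h10 : (1 + l) ^ 4 * Real.exp (5 * (n - 3) * l) ≤
        (1 + E) ^ 4 * ((1 + l) ^ 4 * Real.exp (5 * (n - 3) * l)) :=
      le_mul_of_one_le_left (by positivity) hE4
    apply mul_le_mul h9 h10 (by positivity) (by linarith)
  · have hcore := neck_core hn hn9 hM1 hκ0 hm0 P hM hPm dm mpos hma hcl hNE hx hy0.1 hy0.2 hz
      (fun u hu => hmin hu) hvp hv1 (hvv0.trans hv0x) (hvv0.trans hv0z) h2 hdc rfl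
    have hfin := neck_final hn hn9 hM1 hκ0 hE hvp hv1 hd hd1.le hC1 hcore
    rw [← hC2, ← hl, ← hR] at hfin
    have h3 : C2 ≤ C3 := by rw [hC3]; linarith
    have h4 : C2 * R ≤ C3 * R := mul_le_mul_of_nonneg_right h3 (by linarith)
    linarith

end Pool.Agent.Q81.TF
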